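import Mathlib
import Pool.Agent.H713R2.AR.PR

/-!
# Real renormalisation (module M1 of the project of helper50 for MP_c6f924_an)

For real `x ∈ [-2, -3/4]` with `P₃(x)` at most the fixed point `α`, all odd iterates of the critical
point are real and at most `-1/2`.
-/

set_option autoImplicit false

open Complex Topology Filter Metric MeasureTheory Set N62a1eb23 Pool.Agent.H713R2 Pool.Agent.H712R2

namespace Pool.Agent.T6.H32.LC

theorem real_renorm {x : ℝ} (hx1 : -2 ≤ x) (hx2 : x ≤ -3 / 4)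
    (h3 : (P 2 3 (x : ℂ)).re ≤ (1 - √(1 - 4 * x)) / 2) (j : ℕ) :
    (P 2 (2 * j + 1) (x : ℂ)).im = 0 ∧ (P 2 (2 * j + 1) (x : ℂ)).re ≤ -1 / 2 := by
  -- the real orbit
  obtain ⟨p, hp0, hps⟩ : ∃ p : ℕ → ℝ, p 0 = 0 ∧ ∀ n, p (n + 1) = p n ^ 2 + x :=
    ⟨fun n => (fun t : ℝ => t ^ 2 + x)^[n] 0, rfl, fun n => by
      simp only [Function.iterate_succ_apply']⟩
  have hP : ∀ n, P 2 n (x : ℂ) = (p n : ℂ) := by
    intro n
    induction n with
    | zero => rw [P_zero, hp0]; simp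
    | succ n ih => rw [P_succ, ih, hps]; push_cast; ring
  set s : ℝ := √(1 - 4 * x) with hs
  have hs2 : s ^ 2 = 1 - 4 * x := Real.sq_sqrt (by linarith)
  have hs0 : 0 ≤ s := Real.sqrt_nonneg _
  have hs3 : 2 ≤ s := by nlinarith
  have hs4 : s ≤ 3 := by nlinarith
  set α : ℝ := (1 - s) / 2 with hα
  have hα2 : α ^ 2 + x = α := by rw [hα]; nlinarith
  have hα3 : α ≤ -1 / 2 := by rw [hα]; linarith
  have hα4 : -1 ≤ α := by rw [hα]; linarith
  have hxα : x ≤ α := by nlinarith [sq_nonneg α]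
  have h3' : p 3 ≤ α := by
    rw [hP] at h3
    simpa using h3
  have hp1 : p 1 = x := by rw [hps, hp0]; ring
  have hp2 : p 2 = x ^ 2 + x := by rw [hps, hp1]
  have hp2a : p 2 ^ 2 ≤ α ^ 2 := by
    have : p 3 = p 2 ^ 2 + x := hps 2
    linarith
  have key : ∀ k : ℕ, p (2 * k) ^ 2 ≤ α ^ 2 ∧ p (2 * k + 1) ≤ α ∧ x ≤ p (2 * k + 1) := by
    intro k
    induction k with
    | zero =>
      refine ⟨?_, ?_, ?_⟩
      · simp only [Nat.mul_zero, hp0]; nlinarith [sq_nonneg α]
      · simp only [Nat.mul_zero, Nat.zero_add, hp1]; exact hxα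
      · simp only [Nat.mul_zero, Nat.zero_add, hp1]; exact le_refl _
    | succ k ih =>
      obtain ⟨-, h2, h3⟩ := ih
      have e1 : p (2 * (k + 1)) = p (2 * k + 1) ^ 2 + x := by
        rw [show 2 * (k + 1) = (2 * k + 1) + 1 by ring, hps]
      have e2 : p (2 * (k + 1) + 1) = p (2 * (k + 1)) ^ 2 + x := hps _
      -- bounds of `p (2 (k+1))`
      have b1 : α ≤ p (2 * (k + 1)) := by
        rw [e1]
        have : (-α) ^ 2 ≤ (-p (2 * k + 1)) ^ 2 :=
          pow_le_pow_left₀ (by linarith) (by linarith) 2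
        rw [neg_sq, neg_sq] at this
        linarith
      have b2 : p (2 * (k + 1)) ≤ p 2 := by
        rw [e1, hp2]
        have : (-p (2 * k + 1)) ^ 2 ≤ (-x) ^ 2 :=
          pow_le_pow_left₀ (by linarith) (by linarith) 2
        rw [neg_sq, neg_sq] at this
        linarith
      have b3 : p (2 * (k + 1)) ≤ -α := by
        have h5 : |p 2| ≤ |α| := sq_le_sq.1 hp2a
        have h6 : |α| = -α := abs_of_nonpos (by linarith)
        have h7 : p 2 ≤ |p 2| := le_abs_self _
        linarith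
      have b4 : p (2 * (k + 1)) ^ 2 ≤ α ^ 2 := by
        have h8 : p (2 * (k + 1)) ^ 2 ≤ (-α) ^ 2 := sq_le_sq' (by linarith) b3
        rwa [neg_sq] at h8
      refine ⟨b4, ?_, ?_⟩
      · rw [e2]; linarith
      · rw [e2]; have := sq_nonneg (p (2 * (k + 1))); linarith
  rw [hP]
  refine ⟨by simp, ?_⟩
  have := (key j).2.1
  simp only [Complex.ofReal_re]
  linarith

end Pool.Agent.T6.H32.LC
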