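import Mathlib

/-!
# A parameter lemma (module J of the project of helper50 for MP_c6f924_an)

If `Ξ` has a simple zero at `c₀` then the equation `Ξ c = φ c v`, with a small holomorphic
perturbation `φ` depending on a parameter `v`, has a unique solution `c = κ v` near `c₀`, which is
holomorphic in `v`, and the distance of any `c` near `c₀` to `κ v` is at most `L |Ξ c - φ c v|`.
-/

set_option autoImplicit false

open Metric Set Filter Topology

namespace Pool.Agent.T6.H32.LC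

theorem param_lemma {Ξ : ℂ → ℂ} {c₀ : ℂ} {δ : ℝ} (hδ : 0 < δ)
    (hΞ : DifferentiableOn ℂ Ξ (ball c₀ δ)) (h0 : Ξ c₀ = 0) (h1 : deriv Ξ c₀ ≠ 0) :
    ∃ δ₁ ε₀ L : ℝ, 0 < δ₁ ∧ δ₁ < δ ∧ 0 < ε₀ ∧ 0 < L ∧
      ∀ (U : Set ℂ) (φ : ℂ → ℂ → ℂ), IsOpen U →
        (∀ c ∈ ball c₀ δ, ∀ v ∈ U, DifferentiableAt ℂ (fun q : ℂ × ℂ => φ q.1 q.2) (c, v)) →
        (∀ c ∈ ball c₀ δ, ∀ v ∈ U, ‖φ c v‖ ≤ ε₀) →
        ∃ κ : ℂ → ℂ, DifferentiableOn ℂ κ U ∧
          (∀ v ∈ U, κ v ∈ closedBall c₀ δ₁ ∧ Ξ (κ v) = φ (κ v) v) ∧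
          (∀ v ∈ U, ∀ c ∈ closedBall c₀ δ₁, ‖c - κ v‖ ≤ L * ‖Ξ c - φ c v‖) := by
  set A : ℂ := deriv Ξ c₀ with hA
  have hA0 : 0 < ‖A‖ := norm_pos_iff.2 h1
  -- the radius
  have hcont : ContinuousAt (deriv Ξ) c₀ :=
    ((hΞ.deriv isOpen_ball).continuousOn).continuousAt (ball_mem_nhds c₀ hδ)
  have hev : ∀ᶠ c in 𝓝 c₀, ‖deriv Ξ c - A‖ < ‖A‖ / 4 := by
    have h2 : Tendsto (fun c => deriv Ξ c - A) (𝓝 c₀) (𝓝 0) := by
      have := hcont.tendsto.sub_const A
      simpa [hA] using this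
    have h3 := h2.norm
    rw [norm_zero] at h3
    exact h3.eventually_lt_const (by positivity)
  obtain ⟨r, hr, hrA⟩ := Metric.eventually_nhds_iff_ball.1 hev
  set δ₁ : ℝ := min r δ / 2 with hδ₁
  have hmin : 0 < min r δ := lt_min hr hδ
  have hδ₁0 : 0 < δ₁ := by positivity
  have hδ₁δ : δ₁ < δ := by
    have := min_le_right r δ
    linarith
  have hδ₁r : δ₁ < r := by
    have := min_le_left r δ
    linarith
  have hsub : closedBall c₀ δ₁ ⊆ ball c₀ δ := closedBall_subset_ball hδ₁δ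
  set ε₀ : ℝ := min (‖A‖ * δ₁ / 2) (‖A‖ * (δ - δ₁) / 8) with hε₀
  have hd : 0 < δ - δ₁ := by linarith
  refine ⟨δ₁, ε₀, 2 / ‖A‖, hδ₁0, hδ₁δ, lt_min (by positivity) (by positivity), by positivity, ?_⟩
  intro U φ hU hφ hb
  have hc₀ : c₀ ∈ ball c₀ δ := mem_ball_self hδ
  have hc₀' : c₀ ∈ closedBall c₀ δ₁ := mem_closedBall_self hδ₁0.le
  -- the map
  let T : ℂ → ℂ → ℂ := fun v c => c - (Ξ c - φ c v) / A
  have hφd : ∀ v ∈ U, ∀ c ∈ ball c₀ δ, DifferentiableAt ℂ (fun c => φ c v) c := by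
    intro v hv c hc
    have h2 : DifferentiableAt ℂ (fun c : ℂ => (c, v)) c :=
      differentiableAt_id.prodMk (differentiableAt_const v)
    exact (hφ c hc v hv).comp (f := fun c : ℂ => (c, v)) c h2
  have hΞd : ∀ c ∈ ball c₀ δ, DifferentiableAt ℂ Ξ c := fun c hc =>
    hΞ.differentiableAt (isOpen_ball.mem_nhds hc)
  have hTd : ∀ v ∈ U, ∀ c ∈ ball c₀ δ, DifferentiableAt ℂ (T v) c := by
    intro v hv c hc
    exact differentiableAt_id.sub (((hΞd c hc).sub (hφd v hv c hc)).div_const A)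
  have hTderiv : ∀ v ∈ U, ∀ c ∈ closedBall c₀ δ₁, ‖deriv (T v) c‖ ≤ 1 / 2 := by
    intro v hv c hc
    have hc' := hsub hc
    have h2 : deriv (T v) c = 1 - (deriv Ξ c - deriv (fun c => φ c v) c) / A := by
      have h3 : HasDerivAt (T v) (1 - (deriv Ξ c - deriv (fun c => φ c v) c) / A) c :=
        (hasDerivAt_id c).sub
          (((hΞd c hc').hasDerivAt.sub (hφd v hv c hc').hasDerivAt).div_const A)
      exact h3.deriv
    have h3 : ‖deriv (fun c => φ c v) c‖ ≤ ε₀ / ((δ - δ₁) / 2) := by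
      have hcl : closedBall c ((δ - δ₁) / 2) ⊆ ball c₀ δ := by
        intro z hz
        rw [mem_closedBall] at hz hc
        rw [mem_ball]
        have := dist_triangle z c c₀
        linarith
      refine Complex.norm_deriv_le_of_forall_mem_sphere_norm_le (by positivity) ?_ ?_
      · refine DifferentiableOn.diffContOnCl ?_
        rw [closure_ball c (by positivity)]
        intro z hz
        exact (hφd v hv z (hcl hz)).differentiableWithinAt
      · intro z hz
        exact hb z (hcl (sphere_subset_closedBall hz)) v hv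
    have h4 : ε₀ / ((δ - δ₁) / 2) ≤ ‖A‖ / 4 := by
      have h5 : ε₀ ≤ ‖A‖ * (δ - δ₁) / 8 := min_le_right _ _
      rw [div_le_iff₀ (by positivity)]
      linarith
    have h5 : ‖deriv Ξ c - A‖ < ‖A‖ / 4 := hrA c (closedBall_subset_ball hδ₁r hc)
    have h6 : deriv (T v) c = - ((deriv Ξ c - A) - deriv (fun c => φ c v) c) / A := by
      rw [h2]
      field_simp
      ring
    rw [h6, norm_div, norm_neg, div_le_iff₀ hA0]
    have h7 := norm_sub_le (deriv Ξ c - A) (deriv (fun c => φ c v) c)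
    linarith
  have hTlip : ∀ v ∈ U, ∀ c ∈ closedBall c₀ δ₁, ∀ c' ∈ closedBall c₀ δ₁,
      ‖T v c' - T v c‖ ≤ 1 / 2 * ‖c' - c‖ := by
    intro v hv c hc c' hc'
    exact (convex_closedBall c₀ δ₁).norm_image_sub_le_of_norm_deriv_le
      (fun z hz => hTd v hv z (hsub hz)) (hTderiv v hv) hc hc'
  have hT0 : ∀ v ∈ U, ‖T v c₀ - c₀‖ ≤ δ₁ / 2 := by
    intro v hv
    have h2 : T v c₀ - c₀ = φ c₀ v / A := by
      simp only [T, h0]
      ring
    rw [h2, norm_div, div_le_iff₀ hA0]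
    have h3 := hb c₀ hc₀ v hv
    have h4 : ε₀ ≤ ‖A‖ * δ₁ / 2 := min_le_left _ _
    linarith
  have hTmaps : ∀ v ∈ U, ∀ c ∈ closedBall c₀ δ₁, T v c ∈ closedBall c₀ δ₁ := by
    intro v hv c hc
    rw [mem_closedBall, dist_eq_norm]
    have h2 := hTlip v hv c₀ hc₀' c hc
    have h3 := hT0 v hv
    have h4 : ‖c - c₀‖ ≤ δ₁ := by rwa [← dist_eq_norm, ← mem_closedBall]
    calc ‖T v c - c₀‖ = ‖(T v c - T v c₀) + (T v c₀ - c₀)‖ := by congr 1; ring
      _ ≤ ‖T v c - T v c₀‖ + ‖T v c₀ - c₀‖ := norm_add_le _ _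
      _ ≤ δ₁ := by linarith
  -- the iterates
  let s : ℕ → ℂ → ℂ := fun j v => (T v)^[j] c₀
  have hs0 : ∀ v, s 0 v = c₀ := fun v => rfl
  have hs : ∀ j v, s (j + 1) v = T v (s j v) := fun j v => by
    simp only [s, Function.iterate_succ_apply']
  have hsm : ∀ j, ∀ v ∈ U, s j v ∈ closedBall c₀ δ₁ := by
    intro j
    induction j with
    | zero => intro v _; exact hc₀'
    | succ j ih => intro v hv; rw [hs]; exact hTmaps v hv _ (ih v hv)
  have hsd : ∀ j, DifferentiableOn ℂ (s j) U := by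
    intro j
    induction j with
    | zero => exact (differentiable_const c₀).differentiableOn
    | succ j ih =>
      intro v hv
      have h2 : DifferentiableAt ℂ (s j) v := ih.differentiableAt (hU.mem_nhds hv)
      have h3 : DifferentiableAt ℂ (fun v => φ (s j v) v) v := by
        have h4 : DifferentiableAt ℂ (fun v => (s j v, v)) v := h2.prodMk differentiableAt_id
        exact (hφ (s j v) (hsub (hsm j v hv)) v hv).comp (f := fun v => (s j v, v)) v h4
      have h4 : DifferentiableAt ℂ (fun v => Ξ (s j v)) v :=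
        (hΞd (s j v) (hsub (hsm j v hv))).comp v h2
      have h5 : s (j + 1) = fun v => s j v - (Ξ (s j v) - φ (s j v) v) / A := by
        funext v; rw [hs]
      rw [h5]
      exact (h2.sub ((h4.sub h3).div_const A)).differentiableWithinAt
  have hstep : ∀ v ∈ U, ∀ j, dist (s j v) (s (j + 1) v) ≤ δ₁ / 2 * (1 / 2) ^ j := by
    intro v hv j
    induction j with
    | zero =>
      rw [hs, hs0, dist_comm, dist_eq_norm]
      simpa using hT0 v hv
    | succ j ih =>
      rw [hs (j + 1), hs j, dist_eq_norm]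
      have h2 := hTlip v hv (s (j + 1) v) (hsm _ v hv) (s j v) (hsm _ v hv)
      rw [hs j] at h2
      rw [hs j, dist_eq_norm] at ih
      calc ‖T v (s j v) - T v (T v (s j v))‖ ≤ 1 / 2 * ‖s j v - T v (s j v)‖ := h2
        _ ≤ 1 / 2 * (δ₁ / 2 * (1 / 2) ^ j) := by gcongr
        _ = δ₁ / 2 * (1 / 2) ^ (j + 1) := by ring
  have hlim : ∀ v ∈ U, ∃ a, Tendsto (fun j => s j v) atTop (𝓝 a) := fun v hv =>
    cauchySeq_tendsto_of_complete
      (cauchySeq_of_le_geometric (1 / 2) (δ₁ / 2) (by norm_num) (hstep v hv))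
  classical
  let κ : ℂ → ℂ := fun v => if hv : v ∈ U then (hlim v hv).choose else c₀
  have hκ : ∀ v ∈ U, Tendsto (fun j => s j v) atTop (𝓝 (κ v)) := by
    intro v hv
    simp only [κ, hv, dif_pos]
    exact (hlim v hv).choose_spec
  have hκd : ∀ v ∈ U, ∀ j, dist (s j v) (κ v) ≤ δ₁ * (1 / 2) ^ j := by
    intro v hv j
    have := dist_le_of_le_geometric_of_tendsto (1 / 2) (δ₁ / 2) (by norm_num) (hstep v hv)
      (hκ v hv) j
    refine this.trans (le_of_eq ?_)
    ring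
  have hκm : ∀ v ∈ U, κ v ∈ closedBall c₀ δ₁ := fun v hv =>
    isClosed_closedBall.mem_of_tendsto (hκ v hv) (Eventually.of_forall fun j => hsm j v hv)
  have hfix : ∀ v ∈ U, T v (κ v) = κ v := by
    intro v hv
    have h2 : Tendsto (fun j => s (j + 1) v) atTop (𝓝 (T v (κ v))) := by
      have h3 : ContinuousAt (T v) (κ v) := (hTd v hv _ (hsub (hκm v hv))).continuousAt
      have h4 := h3.tendsto.comp (hκ v hv)
      refine h4.congr fun j => ?_
      rw [hs]; rfl
    exact tendsto_nhds_unique h2 ((tendsto_add_atTop_iff_nat 1).2 (hκ v hv))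
  refine ⟨κ, ?_, ?_, ?_⟩
  · have hunif : TendstoUniformlyOn s κ atTop U := by
      rw [Metric.tendstoUniformlyOn_iff]
      intro ε hε
      have h2 : Tendsto (fun j : ℕ => δ₁ * (1 / 2 : ℝ) ^ j) atTop (𝓝 0) := by
        have := (tendsto_pow_atTop_nhds_zero_of_lt_one (r := (1 / 2 : ℝ)) (by norm_num)
          (by norm_num)).const_mul δ₁
        simpa using this
      filter_upwards [h2.eventually_lt_const hε] with j hj v hv
      rw [dist_comm]
      exact (hκd v hv j).trans_lt hj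
    exact hunif.tendstoLocallyUniformlyOn.differentiableOn
      (Eventually.of_forall fun j => hsd j) hU
  · intro v hv
    refine ⟨hκm v hv, ?_⟩
    have h2 := hfix v hv
    have h3 : (Ξ (κ v) - φ (κ v) v) / A = 0 := by
      have : T v (κ v) = κ v - (Ξ (κ v) - φ (κ v) v) / A := rfl
      rw [this] at h2
      linear_combination -h2
    rcases div_eq_zero_iff.1 h3 with h4 | h4
    · exact sub_eq_zero.1 h4
    · exact absurd h4 h1
  · intro v hv c hc
    have h2 := hTlip v hv (κ v) (hκm v hv) c hc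
    rw [hfix v hv] at h2
    have h3 : c - κ v = (Ξ c - φ c v) / A + (T v c - κ v) := by
      simp only [T]; ring
    have h4 : ‖c - κ v‖ ≤ ‖Ξ c - φ c v‖ / ‖A‖ + 1 / 2 * ‖c - κ v‖ := by
      calc ‖c - κ v‖ = ‖(Ξ c - φ c v) / A + (T v c - κ v)‖ := by rw [← h3]
        _ ≤ ‖(Ξ c - φ c v) / A‖ + ‖T v c - κ v‖ := norm_add_le _ _
        _ ≤ _ := by rw [norm_div]; linarith
    have h5 : 2 / ‖A‖ * ‖Ξ c - φ c v‖ = 2 * (‖Ξ c - φ c v‖ / ‖A‖) := by ring
    rw [h5]
    linarith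

end Pool.Agent.T6.H32.LC
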